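import Pool.Agent.H751R3.Chi.Seq
import Pool.Agent.H751R3.Dart

set_option autoImplicit false

/-! The Jacobi operator on finitely supported sequences. -/

namespace Pool.Agent.H751R3.Chi

open Filter Topology Dart ComplexConjugate

/-- the Jacobi matrix -/
noncomputable def cx (x : ℕ → ℂ) (k : ℕ) : ℂ :=
  (if k = 0 then (0 : ℂ) else (aa (k - 1) : ℂ) * x (k - 1)) + (bb k : ℂ) * x k +
    (aa k : ℂ) * x (k + 1)

theorem cx_zero' (x : ℕ → ℂ) : cx x 0 = (bb 0 : ℂ) * x 0 + (aa 0 : ℂ) * x 1 := by simp [cx]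

theorem cx_succ (x : ℕ → ℂ) (k : ℕ) : cx x (k + 1) = (aa k : ℂ) * x k +
    (bb (k + 1) : ℂ) * x (k + 1) + (aa (k + 1) : ℂ) * x (k + 1 + 1) := by simp [cx]

theorem exists_bound (x : ℕ →₀ ℂ) : ∃ N, ∀ n, N ≤ n → x n = 0 := by
  refine ⟨x.support.sup id + 1, fun n hn => ?_⟩
  by_contra h
  have h1 : n ∈ x.support := Finsupp.mem_support_iff.2 h
  have h2 : id n ≤ x.support.sup id := Finset.le_sup h1
  simp only [id] at h2
  omega

theorem cx_eq_zero {x : ℕ → ℂ} {N n : ℕ} (h : ∀ n, N ≤ n → x n = 0) (hn : N + 1 ≤ n) :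
    cx x n = 0 := by
  obtain ⟨m, rfl⟩ : ∃ m, n = m + 1 := ⟨n - 1, by omega⟩
  rw [cx_succ, h m (by omega), h (m + 1) (by omega), h (m + 1 + 1) (by omega)]
  simp

theorem summable_of_bound {f : ℕ → ℂ} {N : ℕ} (h : ∀ n, N ≤ n → f n = 0) :
    Summable fun n => ‖f n‖ ^ 2 := by
  refine summable_of_ne_finset_zero (s := Finset.range N) fun n hn => ?_
  rw [Finset.mem_range, not_lt] at hn
  rw [h n hn]; simp

/-- the inclusion of the finitely supported sequences -/
noncomputable def J : (ℕ →₀ ℂ) →ₗ[ℂ] L2 ℕ where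
  toFun x := ⟨fun n => x n, mem_of_summable _ (summable_of_bound (exists_bound x).choose_spec)⟩
  map_add' x y := by ext n; rfl
  map_smul' c x := by ext n; rfl

/-- the operator -/
noncomputable def CC : (ℕ →₀ ℂ) →ₗ[ℂ] L2 ℕ where
  toFun x := ⟨fun n => cx x n, mem_of_summable _ (summable_of_bound
    (N := (exists_bound x).choose + 1) fun _ hn => cx_eq_zero (exists_bound x).choose_spec hn)⟩
  map_add' x y := by
    ext n
    change cx (x + y : ℕ →₀ ℂ) n = cx x n + cx y n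
    unfold cx
    simp only [Finsupp.add_apply]
    split_ifs <;> ring
  map_smul' c x := by
    ext n
    change cx (c • x : ℕ →₀ ℂ) n = c * cx x n
    unfold cx
    simp only [Finsupp.smul_apply, smul_eq_mul]
    split_ifs <;> ring

theorem J_apply (x : ℕ →₀ ℂ) (n : ℕ) : J x n = x n := rfl

theorem CC_apply (x : ℕ →₀ ℂ) (n : ℕ) : CC x n = cx x n := rfl

theorem inner_sum' (f g : L2 ℕ) {N : ℕ} (h : ∀ n, N ≤ n → f n = 0) :
    inner ℂ f g = ∑ n ∈ Finset.range N, conj (f n) * g n := by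
  rw [lp.inner_eq_tsum, tsum_eq_sum (s := Finset.range N)]
  · refine Finset.sum_congr rfl fun n _ => ?_
    simp [mul_comm]
  · intro n hn
    rw [Finset.mem_range, not_lt] at hn
    rw [h n hn]; simp

theorem partial_symm (x y : ℕ → ℂ) (M : ℕ) :
    ∑ n ∈ Finset.range (M + 1), (conj (cx x n) * y n - conj (x n) * cx y n) =
      (aa M : ℂ) * (conj (x (M + 1)) * y M - conj (x M) * y (M + 1)) := by
  induction M with
  | zero =>
    simp only [zero_add, Finset.sum_range_one, cx_zero', map_add, map_mul, Complex.conj_ofReal]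
    ring
  | succ M ih =>
    rw [Finset.sum_range_succ, ih]
    simp only [cx_succ, map_add, map_mul, Complex.conj_ofReal]
    ring

theorem CC_symm (x y : ℕ →₀ ℂ) : inner ℂ (CC x) (J y) = inner ℂ (J x) (CC y) := by
  obtain ⟨N, hN⟩ := exists_bound x
  have hN' : ∀ n, N + 1 ≤ n → x n = 0 := fun n hn => hN n (by omega)
  rw [inner_sum' (CC x) (J y) (N := N + 1) (fun n hn => cx_eq_zero hN hn),
    inner_sum' (J x) (CC y) (N := N + 1) hN', ← sub_eq_zero, ← Finset.sum_sub_distrib]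
  have h := partial_symm x y N
  rw [hN N le_rfl, hN (N + 1) (by omega)] at h
  simp only [J_apply, CC_apply]
  rw [h]
  simp

/-- the cross term -/
noncomputable def RR (x : ℕ → ℂ) (n : ℕ) : ℝ := (conj (x n) * x (n + 1)).re

theorem RR_comm (x : ℕ → ℂ) (n : ℕ) : (conj (x (n + 1)) * x n).re = RR x n := by
  unfold RR
  simp only [Complex.mul_re, Complex.conj_re, Complex.conj_im]
  ring

theorem RR_ge (x : ℕ → ℂ) (n : ℕ) : - (‖x n‖ * ‖x (n + 1)‖) ≤ RR x n := by
  have h := Complex.abs_re_le_norm (conj (x n) * x (n + 1))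
  rw [norm_mul, Complex.norm_conj] at h
  exact (abs_le.1 h).1

theorem self_term (x : ℂ) (b : ℝ) : (conj x * ((b : ℂ) * x)).re = b * ‖x‖ ^ 2 := by
  rw [← Complex.normSq_eq_norm_sq, Complex.normSq_apply]
  simp only [Complex.mul_re, Complex.mul_im, Complex.conj_re, Complex.conj_im, Complex.ofReal_re,
    Complex.ofReal_im]
  ring

theorem cross_term (x y : ℂ) (b : ℝ) : (conj x * ((b : ℂ) * y)).re = b * (conj x * y).re := by
  simp only [Complex.mul_re, Complex.mul_im, Complex.conj_re, Complex.conj_im, Complex.ofReal_re,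
    Complex.ofReal_im]
  ring

theorem partial_form (x : ℕ → ℂ) (e r s : ℕ → ℝ) (h0 : bb 0 = e 0 + aa 0 * r 0)
    (h1 : ∀ n, bb (n + 1) = e (n + 1) + aa (n + 1) * r (n + 1) + aa n * s n) (M : ℕ) :
    ∑ n ∈ Finset.range (M + 1), (conj (x n) * cx x n).re =
      ∑ n ∈ Finset.range (M + 1), (e n * ‖x n‖ ^ 2 +
        aa n * (r n * ‖x n‖ ^ 2 + s n * ‖x (n + 1)‖ ^ 2 + 2 * RR x n)) -
      aa M * (s M * ‖x (M + 1)‖ ^ 2 + RR x M) := by
  induction M with
  | zero =>
    simp only [zero_add, Finset.sum_range_one, cx_zero', mul_add, Complex.add_re, self_term,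
      cross_term]
    rw [h0]
    unfold RR
    ring
  | succ M ih =>
    rw [Finset.sum_range_succ, ih, Finset.sum_range_succ _ (M + 1)]
    simp only [cx_succ, mul_add, Complex.add_re, self_term, cross_term]
    rw [h1, RR_comm]
    unfold RR
    ring

theorem re_form (x : ℕ →₀ ℂ) (e r s : ℕ → ℝ) (h0 : bb 0 = e 0 + aa 0 * r 0)
    (h1 : ∀ n, bb (n + 1) = e (n + 1) + aa (n + 1) * r (n + 1) + aa n * s n) :
    ∃ N, (∀ n, N ≤ n → x n = 0) ∧ (inner ℂ (J x) (CC x)).re =
      ∑ n ∈ Finset.range N, (e n * ‖x n‖ ^ 2 +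
        aa n * (r n * ‖x n‖ ^ 2 + s n * ‖x (n + 1)‖ ^ 2 + 2 * RR x n)) := by
  obtain ⟨N, hN⟩ := exists_bound x
  have hN' : ∀ n, N + 1 ≤ n → x n = 0 := fun n hn => hN n (by omega)
  refine ⟨N + 1, hN', ?_⟩
  rw [inner_sum' (J x) (CC x) (N := N + 1) hN', Complex.re_sum]
  have h := partial_form x e r s h0 h1 N
  have h2 : RR x N = 0 := by unfold RR; rw [hN N le_rfl]; simp
  rw [hN (N + 1) (by omega), h2] at h
  simp only [J_apply, CC_apply]
  rw [h]
  simp

theorem form_nonneg (x : ℕ →₀ ℂ) : 0 ≤ (inner ℂ (J x) (CC x)).re := by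
  obtain ⟨N, _, h⟩ := re_form x (fun _ => 0) rho (fun n => (rho n)⁻¹) (by rw [bb_zero]; ring)
    (fun n => by rw [bb_succ]; ring)
  rw [h]
  refine Finset.sum_nonneg fun n _ => ?_
  have h1 := rho_pos n
  have h2 := RR_ge x n
  have h3 : 0 ≤ (rho n)⁻¹ * (rho n * ‖x n‖ - ‖x (n + 1)‖) ^ 2 := by positivity
  have h4 : (rho n)⁻¹ * (rho n * ‖x n‖ - ‖x (n + 1)‖) ^ 2 =
      rho n * ‖x n‖ ^ 2 + (rho n)⁻¹ * ‖x (n + 1)‖ ^ 2 - 2 * (‖x n‖ * ‖x (n + 1)‖) := by
    field_simp
    ring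
  have h5 : 0 ≤ rho n * ‖x n‖ ^ 2 + (rho n)⁻¹ * ‖x (n + 1)‖ ^ 2 + 2 * RR x n := by linarith
  have := mul_nonneg (aa_pos n).le h5
  linarith

theorem norm_J_sq (x : ℕ →₀ ℂ) {N : ℕ} (h : ∀ n, N ≤ n → x n = 0) :
    ‖J x‖ ^ 2 = ∑ n ∈ Finset.range N, ‖x n‖ ^ 2 := by
  rw [norm_sq_eq', tsum_eq_sum (s := Finset.range N)]
  · rfl
  · intro n hn
    rw [Finset.mem_range, not_lt] at hn
    rw [J_apply, h n hn]; simp

/-- large on the sequences that vanish at the wells -/
theorem form_ge {z : ℕ →₀ ℂ} {L : ℝ} (hw : ∀ k, z (k ^ 4) = 0)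
    (hL : ∀ n, z n ≠ 0 → L ≤ KK n) : L * ‖J z‖ ^ 2 ≤ (inner ℂ (J z) (CC z)).re := by
  obtain ⟨N, hN, h⟩ := re_form z dd (fun _ => 1) (fun _ => 1) (by
    rw [bb_zero]; simp [dd]; ring) (fun n => by
    rw [bb_succ]; simp [dd]; ring)
  rw [h, norm_J_sq z hN, Finset.mul_sum]
  refine Finset.sum_le_sum fun n _ => ?_
  have h1 : 0 ≤ aa n * (1 * ‖z n‖ ^ 2 + 1 * ‖z (n + 1)‖ ^ 2 + 2 * RR z n) := by
    apply mul_nonneg (aa_pos n).le
    have h2 := RR_ge z n
    nlinarith [sq_nonneg (‖z n‖ - ‖z (n + 1)‖)]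
  by_cases hz : z n = 0
  · rw [hz] at h1 ⊢
    simp only [norm_zero] at h1 ⊢
    linarith
  · have h3 : KK n ≤ dd n := dd_ge fun k hk => hz (by rw [hk]; exact hw k)
    have h4 := hL n hz
    have h5 : 0 ≤ ‖z n‖ ^ 2 := by positivity
    nlinarith

/-! ### The trial functions -/

/-- the alternating profile -/
noncomputable def gg (n : ℕ) : ℂ := ((((-1) ^ n * ph n : ℝ)) : ℂ)

theorem norm_gg (n : ℕ) : ‖gg n‖ = ph n := by
  unfold gg
  rw [Complex.norm_real, Real.norm_eq_abs, abs_mul, abs_pow, abs_neg, abs_one, one_pow, one_mul,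
    abs_of_pos (ph_pos n)]

theorem cx_gg (n : ℕ) : cx gg n = 0 := by
  cases n with
  | zero =>
    rw [cx_zero', bb_zero]
    unfold gg
    rw [← Complex.ofReal_mul, ← Complex.ofReal_mul, ← Complex.ofReal_add,
      Complex.ofReal_eq_zero]
    have : ph 1 = rho 0 * ph 0 := rfl
    rw [this]
    ring
  | succ n =>
    rw [cx_succ, bb_succ]
    unfold gg
    rw [← Complex.ofReal_mul, ← Complex.ofReal_mul, ← Complex.ofReal_mul, ← Complex.ofReal_add,
      ← Complex.ofReal_add, Complex.ofReal_eq_zero]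
    rw [ph_succ (n + 1), ph_succ n]
    have := rho_pos n
    field_simp
    ring

/-- trial function at the well `k` -/
noncomputable def Ph (k : ℕ) : ℕ →₀ ℂ :=
  Finsupp.onFinset (Finset.range ((k + 1) ^ 4)) (fun n => if kap n = k then gg n else 0) (by
    intro n hn
    rw [Finset.mem_range]
    by_contra h
    push Not at h
    apply hn
    rw [if_neg]
    intro h2
    have h3 := kk_ge h
    have h4 := kk_le_kap n
    omega)

theorem Ph_apply (k n : ℕ) : Ph k n = if kap n = k then gg n else 0 := rfl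

/-- the size of the errors -/
noncomputable def ee (k : ℕ) : ℝ := AA k * xx k ^ mm k

theorem ee_nonneg (k : ℕ) : 0 ≤ ee k := by
  have := AA_pos k
  have := xx_pos k
  unfold ee; positivity

theorem ee_le (k : ℕ) : ee k ≤ 32 * (1 / 2) ^ k := by
  have hx : (xx k)⁻¹ ^ (k + 1) ≥ 2 := by
    rw [inv_xx]
    have h := one_add_mul_le_pow (a := 1 / ((k : ℝ) + 1)) (by
      have : (0 : ℝ) ≤ 1 / ((k : ℝ) + 1) := by positivity
      linarith) (k + 1)
    have h2 : 1 + ((k + 1 : ℕ) : ℝ) * (1 / ((k : ℝ) + 1)) = 2 := by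
      push_cast; field_simp; norm_num
    rw [h2] at h
    exact h
  have hxp := xx_pos k
  have hx1 := xx_lt_one k
  have h1 : xx k ^ mm k ≤ ((1 : ℝ) / 2) ^ (k ^ 2) := by
    have h2 : (k + 1) * k ^ 2 ≤ mm k := by
      unfold mm
      nlinarith [Nat.zero_le k, Nat.zero_le (k ^ 2), Nat.zero_le (k ^ 3)]
    have h3 : xx k ^ mm k ≤ xx k ^ ((k + 1) * k ^ 2) := pow_le_pow_of_le_one hxp.le hx1.le h2
    refine h3.trans ?_
    rw [pow_mul]
    refine pow_le_pow_left₀ (by positivity) ?_ _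
    rw [inv_pow] at hx
    have h4 : 0 < xx k ^ (k + 1) := by positivity
    rw [ge_iff_le, le_inv_comm₀ (by norm_num) h4] at hx
    simpa using hx
  have h2 : AA k ≤ 2 ^ (3 * k + 1) := by
    have h3 : ((k : ℝ) + 1) ≤ 2 ^ k := by
      have := one_add_mul_le_pow (a := (1 : ℝ)) (by norm_num) k
      norm_num at this
      linarith
    have h4 : AA k ≤ 2 * ((k : ℝ) + 1) ^ 3 := by
      unfold AA
      have hk : (0 : ℝ) ≤ k := Nat.cast_nonneg k
      nlinarith [sq_nonneg ((k : ℝ) + 1)]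
    calc AA k ≤ 2 * ((k : ℝ) + 1) ^ 3 := h4
      _ ≤ 2 * (2 ^ k) ^ 3 := by
          have : ((k : ℝ) + 1) ^ 3 ≤ (2 ^ k) ^ 3 := pow_le_pow_left₀ (by positivity) h3 3
          linarith
      _ = 2 ^ (3 * k + 1) := by rw [← pow_mul, pow_succ, mul_comm k 3]; ring
  calc ee k ≤ 2 ^ (3 * k + 1) * ((1 : ℝ) / 2) ^ (k ^ 2) := by
        unfold ee
        exact mul_le_mul h2 h1 (by positivity) (by positivity)
    _ ≤ 32 * (1 / 2) ^ k := by
        have h5 : 4 * k + 1 ≤ k ^ 2 + 5 := by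
          rcases Nat.lt_or_ge k 2 with h | h
          · interval_cases k <;> norm_num
          · obtain ⟨m, rfl⟩ := Nat.exists_eq_add_of_le h
            nlinarith
        have h6 : (2 : ℝ) ^ (4 * k + 1) ≤ 2 ^ (k ^ 2 + 5) := pow_le_pow_right₀ (by norm_num) h5
        have e1 : (2 : ℝ) ^ (3 * k + 1) * ((1 : ℝ) / 2) ^ (k ^ 2) =
            2 ^ (4 * k + 1) * ((1 / 2) ^ k * (1 / 2) ^ (k ^ 2)) := by
          have : (2 : ℝ) ^ (4 * k + 1) = 2 ^ (3 * k + 1) * 2 ^ k := by
            rw [← pow_add]; congr 1; omega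
          rw [this]
          have h7 : (2 : ℝ) ^ k * (1 / 2) ^ k = 1 := by rw [← mul_pow]; norm_num
          calc (2 : ℝ) ^ (3 * k + 1) * (1 / 2) ^ k ^ 2 =
                2 ^ (3 * k + 1) * (2 ^ k * (1 / 2) ^ k) * (1 / 2) ^ k ^ 2 := by rw [h7]; ring
            _ = _ := by ring
        have e2 : (32 : ℝ) * (1 / 2) ^ k =
            2 ^ (k ^ 2 + 5) * ((1 / 2) ^ k * (1 / 2) ^ (k ^ 2)) := by
          have h7 : (2 : ℝ) ^ (k ^ 2) * (1 / 2) ^ (k ^ 2) = 1 := by rw [← mul_pow]; norm_num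
          rw [pow_add]
          calc (32 : ℝ) * (1 / 2) ^ k = 32 * (2 ^ (k ^ 2) * (1 / 2) ^ (k ^ 2)) * (1 / 2) ^ k := by
                rw [h7]; ring
            _ = _ := by ring
        rw [e1, e2]
        exact mul_le_mul_of_nonneg_right h6 (by positivity)

theorem cx_Ph (k n : ℕ) : cx (Ph k) n =
    (if n = 0 then 0 else (aa (n - 1) : ℂ) * gg (n - 1) *
      ((if kap (n - 1) = k then 1 else 0) - if kap n = k then 1 else 0)) +
    (aa n : ℂ) * gg (n + 1) * ((if kap (n + 1) = k then 1 else 0) - if kap n = k then 1 else 0) := by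
  have h := cx_gg n
  unfold cx at h ⊢
  simp only [Ph_apply]
  by_cases hk : kap n = k
  · by_cases h0 : n = 0
    · subst h0
      simp only [if_true, hk] at h ⊢
      split_ifs <;> linear_combination h
    · simp only [h0, if_false, hk, if_true] at h ⊢
      split_ifs <;> linear_combination h
  · by_cases h0 : n = 0
    · subst h0
      simp only [if_true, hk, if_false] at h ⊢
      split_ifs <;> ring
    · simp only [h0, if_false, hk] at h ⊢
      split_ifs <;> ring

theorem jump_bound {n k : ℕ} (h : kap (n + 1) ≠ kap n) (hk : kap (n + 1) = k ∨ kap n = k) :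
    (n = k ^ 4 + mm k ∨ n = (k - 1) ^ 4 + mm (k - 1)) ∧ aa n * ph n ≤ ee k + ee (k - 1) ∧
      aa n * ph (n + 1) ≤ ee k + ee (k - 1) := by
  rcases kap_succ n with h1 | ⟨l, h1, h2, h3⟩
  · exact absurd h1 h
  · have ha : aa n = AA l := by unfold aa; rw [h1, kk_eq (by omega)]
    have hp : ph n = xx l ^ mm l := by rw [h1, ph_mu]
    have hp' : ph (n + 1) = xx l ^ mm l := by rw [h1, ph_mu']
    rw [ha, hp, hp']
    have he : AA l * xx l ^ mm l = ee l := rfl
    rw [he]
    have := ee_nonneg k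
    have := ee_nonneg (k - 1)
    rcases hk with hk | hk
    · have : k - 1 = l := by omega
      rw [this] at *
      exact ⟨Or.inr h1, by linarith, by linarith⟩
    · have : k = l := by omega
      subst this
      exact ⟨Or.inl h1, by linarith, by linarith⟩

theorem norm_cx_Ph (k n : ℕ) : ‖cx (Ph k) n‖ ≤ 2 * (ee k + ee (k - 1)) := by
  have he : 0 ≤ ee k + ee (k - 1) := add_nonneg (ee_nonneg _) (ee_nonneg _)
  rw [cx_Ph]
  have h1 : ‖(if n = 0 then (0 : ℂ) else (aa (n - 1) : ℂ) * gg (n - 1) *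
      ((if kap (n - 1) = k then 1 else 0) - if kap n = k then 1 else 0))‖ ≤ ee k + ee (k - 1) := by
    by_cases h0 : n = 0
    · rw [if_pos h0]; simpa using he
    · rw [if_neg h0]
      obtain ⟨m, rfl⟩ := Nat.exists_eq_succ_of_ne_zero h0
      rw [Nat.succ_eq_add_one, Nat.add_sub_cancel, norm_mul, norm_mul, norm_gg, Complex.norm_real,
        Real.norm_eq_abs, abs_of_pos (aa_pos m)]
      by_cases hA : kap m = k <;> by_cases hB : kap (m + 1) = k
      · simpa [hA, hB] using he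
      · have := jump_bound (n := m) (k := k) (fun h => hB (h.trans hA)) (Or.inr hA)
        simpa [hA, hB] using this.2.1
      · have := jump_bound (n := m) (k := k) (fun h => hA (h.symm.trans hB)) (Or.inl hB)
        simpa [hA, hB] using this.2.1
      · simpa [hA, hB] using he
  have h2 : ‖(aa n : ℂ) * gg (n + 1) *
      ((if kap (n + 1) = k then 1 else 0) - if kap n = k then 1 else 0)‖ ≤ ee k + ee (k - 1) := by
    rw [norm_mul, norm_mul, norm_gg, Complex.norm_real,
        Real.norm_eq_abs, abs_of_pos (aa_pos n)]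
    by_cases hA : kap n = k <;> by_cases hB : kap (n + 1) = k
    · simpa [hA, hB] using he
    · have := jump_bound (n := n) (k := k) (fun h => hB (h.trans hA)) (Or.inr hA)
      simpa [hA, hB] using this.2.2
    · have := jump_bound (n := n) (k := k) (fun h => hA (h.symm.trans hB)) (Or.inl hB)
      simpa [hA, hB] using this.2.2
    · simpa [hA, hB] using he
  refine (norm_add_le _ _).trans ?_
  linarith

theorem cx_Ph_ne {k n : ℕ} (h : cx (Ph k) n ≠ 0) :
    n ∈ ({k ^ 4 + mm k, (k - 1) ^ 4 + mm (k - 1), k ^ 4 + mm k + 1,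
      (k - 1) ^ 4 + mm (k - 1) + 1} : Finset ℕ) := by
  by_contra hcon
  apply h
  simp only [Finset.mem_insert, Finset.mem_singleton, not_or] at hcon
  obtain ⟨c1, c2, c3, c4⟩ := hcon
  rw [cx_Ph]
  have h2 : ((if kap (n + 1) = k then (1 : ℂ) else 0) - if kap n = k then 1 else 0) = 0 := by
    by_cases hA : kap n = k <;> by_cases hB : kap (n + 1) = k
    · simp [hA, hB]
    · have := (jump_bound (n := n) (k := k) (fun h => hB (h.trans hA)) (Or.inr hA)).1
      rcases this with h | h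
      · exact absurd h c1
      · exact absurd h c2
    · have := (jump_bound (n := n) (k := k) (fun h => hA (h.symm.trans hB)) (Or.inl hB)).1
      rcases this with h | h
      · exact absurd h c1
      · exact absurd h c2
    · simp [hA, hB]
  rw [h2, mul_zero, add_zero]
  by_cases h0 : n = 0
  · rw [if_pos h0]
  · rw [if_neg h0]
    obtain ⟨m, rfl⟩ := Nat.exists_eq_succ_of_ne_zero h0
    rw [Nat.succ_eq_add_one, Nat.add_sub_cancel]
    have h3 : ((if kap m = k then (1 : ℂ) else 0) - if kap (m + 1) = k then 1 else 0) = 0 := by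
      by_cases hA : kap m = k <;> by_cases hB : kap (m + 1) = k
      · simp [hA, hB]
      · have := (jump_bound (n := m) (k := k) (fun h => hB (h.trans hA)) (Or.inr hA)).1
        rcases this with h | h <;> omega
      · have := (jump_bound (n := m) (k := k) (fun h => hA (h.symm.trans hB)) (Or.inl hB)).1
        rcases this with h | h <;> omega
      · simp [hA, hB]
    rw [h3, mul_zero]

theorem norm_CC_Ph (k : ℕ) : ‖CC (Ph k)‖ ≤ 384 * (1 / 2) ^ k := by
  have he : 0 ≤ ee k + ee (k - 1) := add_nonneg (ee_nonneg _) (ee_nonneg _)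
  have h1 : ‖CC (Ph k)‖ ^ 2 ≤ (4 * (ee k + ee (k - 1))) ^ 2 := by
    rw [norm_sq_eq']
    simp only [CC_apply]
    rw [tsum_eq_sum (s := ({k ^ 4 + mm k, (k - 1) ^ 4 + mm (k - 1), k ^ 4 + mm k + 1,
      (k - 1) ^ 4 + mm (k - 1) + 1} : Finset ℕ)) (by
        intro n hn
        by_contra h
        exact hn (cx_Ph_ne fun h2 => h (by rw [h2]; simp)))]
    refine (Finset.sum_le_card_nsmul _ _ ((2 * (ee k + ee (k - 1))) ^ 2) fun n _ =>
      pow_le_pow_left₀ (norm_nonneg _) (norm_cx_Ph k n) 2).trans ?_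
    rw [nsmul_eq_mul]
    have hc : ((({k ^ 4 + mm k, (k - 1) ^ 4 + mm (k - 1), k ^ 4 + mm k + 1,
      (k - 1) ^ 4 + mm (k - 1) + 1} : Finset ℕ).card : ℕ) : ℝ) ≤ 4 := by
      exact_mod_cast Finset.card_le_four
    nlinarith [sq_nonneg (2 * (ee k + ee (k - 1)))]
  have h2 : ‖CC (Ph k)‖ ≤ 4 * (ee k + ee (k - 1)) := by
    exact (pow_le_pow_iff_left₀ (norm_nonneg _) (by positivity) two_ne_zero).1 h1
  have h3 := ee_le k
  have h4 : ee (k - 1) ≤ 64 * (1 / 2) ^ k := by
    rcases Nat.eq_zero_or_pos k with rfl | hk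
    · have := ee_le 0
      norm_num at this ⊢
      linarith
    · obtain ⟨m, rfl⟩ : ∃ m, k = m + 1 := ⟨k - 1, by omega⟩
      have := ee_le m
      rw [Nat.add_sub_cancel, pow_succ]
      linarith
  linarith

/-- combinations of the trial functions -/
noncomputable def Yc : (ℕ →₀ ℂ) →ₗ[ℂ] (ℕ →₀ ℂ) := Finsupp.linearCombination ℂ Ph

theorem Yc_apply (c : ℕ →₀ ℂ) (n : ℕ) : Yc c n = c (kap n) * gg n := by
  unfold Yc
  rw [Finsupp.linearCombination_apply, Finsupp.sum, Finsupp.finsetSum_apply]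
  simp only [Finsupp.smul_apply, Ph_apply, smul_eq_mul, mul_ite, mul_zero]
  rw [Finset.sum_ite_eq]
  split_ifs with h
  · rfl
  · rw [Finsupp.notMem_support_iff.1 h, zero_mul]

theorem norm_Yc_well (c : ℕ →₀ ℂ) (k : ℕ) : ‖Yc c (k ^ 4)‖ = ‖c k‖ := by
  rw [Yc_apply, kap_well, norm_mul, norm_gg, ph_well, mul_one]

theorem norm_apply_le' (x : ℕ →₀ ℂ) (n : ℕ) : ‖x n‖ ≤ ‖J x‖ :=
  lp.norm_apply_le_norm (by norm_num) (J x) n

theorem norm_CC_Yc {c : ℕ →₀ ℂ} {k0 : ℕ} (hc : ∀ k, k < k0 → c k = 0) :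
    ‖CC (Yc c)‖ ≤ 768 * (1 / 2) ^ k0 * ‖J (Yc c)‖ := by
  have h1 : CC (Yc c) = ∑ k ∈ c.support, c k • CC (Ph k) := by
    unfold Yc
    rw [Finsupp.linearCombination_apply, Finsupp.sum, map_sum]
    simp only [map_smul]
  rw [h1]
  refine (norm_sum_le _ _).trans ?_
  have h2 : ∀ k ∈ c.support, ‖c k • CC (Ph k)‖ ≤ ‖J (Yc c)‖ * (384 * (1 / 2) ^ k) := by
    intro k _
    rw [norm_smul]
    refine mul_le_mul ?_ (norm_CC_Ph k) (norm_nonneg _) (norm_nonneg _)
    rw [← norm_Yc_well]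
    exact norm_apply_le' _ _
  refine (Finset.sum_le_sum h2).trans ?_
  rw [← Finset.mul_sum, ← Finset.mul_sum]
  have h3 : ∑ k ∈ c.support, ((1 : ℝ) / 2) ^ k ≤ 2 * (1 / 2) ^ k0 := by
    have h4 : c.support ⊆ Finset.Ico k0 (k0 + (c.support.sup id + 1)) := by
      intro k hk
      rw [Finset.mem_Ico]
      have h5 : id k ≤ c.support.sup id := Finset.le_sup hk
      simp only [id] at h5
      refine ⟨?_, by omega⟩
      by_contra h6
      exact (Finsupp.mem_support_iff.1 hk) (hc k (by omega))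
    refine (Finset.sum_le_sum_of_subset_of_nonneg h4 fun _ _ _ => by positivity).trans ?_
    rw [Finset.sum_Ico_eq_sum_range, Nat.add_sub_cancel_left]
    have h5 : ∀ N : ℕ, ∑ i ∈ Finset.range N, ((1 : ℝ) / 2) ^ (k0 + i) =
        2 * (1 / 2) ^ k0 - 2 * (1 / 2) ^ (k0 + N) := by
      intro N
      induction N with
      | zero => simp
      | succ N ih => rw [Finset.sum_range_succ, ih, ← add_assoc, pow_succ]; ring
    rw [h5]
    have : (0 : ℝ) ≤ 2 * (1 / 2) ^ (k0 + (c.support.sup id + 1)) := by positivity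
    linarith
  nlinarith [norm_nonneg (J (Yc c))]

end Pool.Agent.H751R3.Chi
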