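import Mathlib

set_option autoImplicit false

/-! The Jacobi parameters of the counterexample. -/

namespace Pool.Agent.H751R3.Chi

open Filter Topology

/-- half block length -/
def mm (k : ℕ) : ℕ := 2 * k ^ 3 + 3 * k ^ 2 + 2 * k

theorem pow_four_succ (k : ℕ) : (k + 1) ^ 4 = k ^ 4 + 2 * mm k + 1 := by
  unfold mm; ring

/-- block index -/
def kk (n : ℕ) : ℕ := Nat.sqrt (Nat.sqrt n)

theorem kk_iff {n k : ℕ} : kk n = k ↔ k ^ 4 ≤ n ∧ n < (k + 1) ^ 4 := by
  unfold kk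
  constructor
  · rintro rfl
    constructor
    · have h1 := Nat.sqrt_le (Nat.sqrt n)
      have h2 := Nat.sqrt_le n
      calc (Nat.sqrt (Nat.sqrt n)) ^ 4 = (Nat.sqrt (Nat.sqrt n) * Nat.sqrt (Nat.sqrt n)) *
            (Nat.sqrt (Nat.sqrt n) * Nat.sqrt (Nat.sqrt n)) := by ring
        _ ≤ Nat.sqrt n * Nat.sqrt n := Nat.mul_le_mul h1 h1
        _ ≤ n := h2
    · have h1 : Nat.sqrt n < (Nat.sqrt (Nat.sqrt n) + 1) * (Nat.sqrt (Nat.sqrt n) + 1) :=
        Nat.lt_succ_sqrt (Nat.sqrt n)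
      rw [Nat.sqrt_lt] at h1
      calc n < _ := h1
        _ = (Nat.sqrt (Nat.sqrt n) + 1) ^ 4 := by ring
  · rintro ⟨h1, h2⟩
    apply le_antisymm
    · apply Nat.le_of_lt_succ
      rw [Nat.sqrt_lt, Nat.sqrt_lt]
      calc n < _ := h2
        _ = _ := by rw [Nat.succ_eq_add_one]; ring
    · rw [Nat.le_sqrt, Nat.le_sqrt]
      calc _ = k ^ 4 := by ring
        _ ≤ n := h1

theorem kk_eq {k j : ℕ} (h : j ≤ 2 * mm k) : kk (k ^ 4 + j) = k := by
  rw [kk_iff, pow_four_succ]; omega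

theorem exists_kj (n : ℕ) : ∃ k j, j ≤ 2 * mm k ∧ n = k ^ 4 + j := by
  have h := (kk_iff (n := n) (k := kk n)).1 rfl
  rw [pow_four_succ] at h
  exact ⟨kk n, n - kk n ^ 4, by omega, by omega⟩

theorem kk_mono {m n : ℕ} (h : m ≤ n) : kk m ≤ kk n :=
  Nat.sqrt_le_sqrt (Nat.sqrt_le_sqrt h)

/-- `K = k + 1` as a real number. -/
noncomputable def KK (n : ℕ) : ℝ := kk n + 1

/-- block weight -/
noncomputable def AA (k : ℕ) : ℝ := ((k : ℝ) + 1) ^ 2 * ((k : ℝ) + 2)

/-- block ratio -/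
noncomputable def xx (k : ℕ) : ℝ := ((k : ℝ) + 1) / ((k : ℝ) + 2)

theorem AA_pos (k : ℕ) : 0 < AA k := by unfold AA; positivity

theorem xx_pos (k : ℕ) : 0 < xx k := by unfold xx; positivity

theorem xx_lt_one (k : ℕ) : xx k < 1 := by
  unfold xx
  rw [div_lt_one (by positivity)]
  linarith

/-- the off diagonal -/
noncomputable def aa (n : ℕ) : ℝ := AA (kk n)

theorem aa_pos (n : ℕ) : 0 < aa n := AA_pos _

/-- the ratios -/
noncomputable def rho (n : ℕ) : ℝ :=
  if n < kk n ^ 4 + mm (kk n) then xx (kk n) else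
    if n = kk n ^ 4 + mm (kk n) then 1 else (xx (kk n))⁻¹

theorem rho_lt {k j : ℕ} (h : j < mm k) : rho (k ^ 4 + j) = xx k := by
  unfold rho
  rw [kk_eq (by omega), if_pos (by omega)]

theorem rho_eq (k : ℕ) : rho (k ^ 4 + mm k) = 1 := by
  unfold rho
  rw [kk_eq (by omega), if_neg (by omega), if_pos rfl]

theorem rho_gt {k j : ℕ} (h : mm k < j) (h2 : j ≤ 2 * mm k) : rho (k ^ 4 + j) = (xx k)⁻¹ := by
  unfold rho
  rw [kk_eq h2, if_neg (by omega), if_neg (by omega)]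

theorem rho_pos (n : ℕ) : 0 < rho n := by
  have h := xx_pos (kk n)
  unfold rho
  split_ifs <;> positivity

/-- the diagonal -/
noncomputable def bb (n : ℕ) : ℝ :=
  aa n * rho n + if n = 0 then 0 else aa (n - 1) * (rho (n - 1))⁻¹

theorem bb_zero : bb 0 = aa 0 * rho 0 := by simp [bb]

theorem bb_succ (n : ℕ) : bb (n + 1) = aa (n + 1) * rho (n + 1) + aa n * (rho n)⁻¹ := by
  simp [bb]

/-- the profile -/
noncomputable def ph : ℕ → ℝ
  | 0 => 1
  | n + 1 => rho n * ph n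

theorem ph_succ (n : ℕ) : ph (n + 1) = rho n * ph n := rfl

theorem ph_pos (n : ℕ) : 0 < ph n := by
  induction n with
  | zero => exact one_pos
  | succ n ih => rw [ph_succ]; exact mul_pos (rho_pos n) ih

theorem ph_block1 {k : ℕ} (h : ph (k ^ 4) = 1) {j : ℕ} (hj : j ≤ mm k) :
    ph (k ^ 4 + j) = xx k ^ j := by
  induction j with
  | zero => simpa using h
  | succ j ih =>
    rw [← add_assoc, ph_succ, ih (by omega), rho_lt (by omega)]
    ring

theorem ph_block2 {k : ℕ} (h : ph (k ^ 4) = 1) : ph (k ^ 4 + mm k + 1) = xx k ^ mm k := by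
  rw [ph_succ, rho_eq, one_mul, ph_block1 h le_rfl]

theorem ph_block3 {k : ℕ} (h : ph (k ^ 4) = 1) {i : ℕ} (hi : i ≤ mm k) :
    ph (k ^ 4 + mm k + 1 + i) = xx k ^ (mm k - i) := by
  induction i with
  | zero => simpa using ph_block2 h
  | succ i ih =>
    have hx := xx_pos k
    rw [← add_assoc, ph_succ, ih (by omega)]
    have h1 : k ^ 4 + mm k + 1 + i = k ^ 4 + (mm k + 1 + i) := by omega
    rw [h1, rho_gt (by omega) (by omega)]
    have h2 : mm k - i = (mm k - (i + 1)) + 1 := by omega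
    rw [h2, pow_succ]
    field_simp

theorem ph_well (k : ℕ) : ph (k ^ 4) = 1 := by
  induction k with
  | zero => rfl
  | succ k ih =>
    have h := ph_block3 ih (i := mm k) le_rfl
    rw [Nat.sub_self, pow_zero] at h
    rw [pow_four_succ, ← h]
    congr 1
    omega

theorem ph_mu (k : ℕ) : ph (k ^ 4 + mm k) = xx k ^ mm k := ph_block1 (ph_well k) le_rfl

theorem ph_mu' (k : ℕ) : ph (k ^ 4 + mm k + 1) = xx k ^ mm k := ph_block2 (ph_well k)

/-- index of the nearest well -/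
def kap (n : ℕ) : ℕ := if n ≤ kk n ^ 4 + mm (kk n) then kk n else kk n + 1

theorem kap_le {k j : ℕ} (h : j ≤ mm k) : kap (k ^ 4 + j) = k := by
  unfold kap
  rw [kk_eq (by omega), if_pos (by omega)]

theorem kap_gt {k j : ℕ} (h : mm k < j) (h2 : j ≤ 2 * mm k) : kap (k ^ 4 + j) = k + 1 := by
  unfold kap
  rw [kk_eq h2, if_neg (by omega)]

theorem kap_well (k : ℕ) : kap (k ^ 4) = k := by
  have := kap_le (k := k) (j := 0) (by omega)
  simpa using this

theorem kk_le_kap (n : ℕ) : kk n ≤ kap n := by unfold kap; split_ifs <;> omega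

theorem kap_le_kk (n : ℕ) : kap n ≤ kk n + 1 := by unfold kap; split_ifs <;> omega

/-- the nearest well changes only in the middle of a block -/
theorem kap_succ (n : ℕ) : kap (n + 1) = kap n ∨
    ∃ k, n = k ^ 4 + mm k ∧ kap n = k ∧ kap (n + 1) = k + 1 := by
  obtain ⟨k, j, hj, rfl⟩ := exists_kj n
  rcases lt_trichotomy j (mm k) with h | h | h
  · left
    rw [kap_le h.le, add_assoc, kap_le (by omega)]
  · right
    subst h
    refine ⟨k, rfl, kap_le le_rfl, ?_⟩
    rcases Nat.eq_zero_or_pos (mm k) with h0 | h0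
    · have h1 : k ^ 4 + mm k + 1 = (k + 1) ^ 4 := by rw [pow_four_succ]; omega
      rw [h1, kap_well]
    · rw [add_assoc, kap_gt (by omega) (by omega)]
  · left
    rw [kap_gt h hj]
    rcases Nat.lt_or_ge j (2 * mm k) with h1 | h1
    · rw [add_assoc, kap_gt (by omega) (by omega)]
    · have h2 : k ^ 4 + j + 1 = (k + 1) ^ 4 := by rw [pow_four_succ]; omega
      rw [h2, kap_well]

/-! ### The excess of the diagonal -/

/-- the excess `b_n - a_n - a_{n-1}` -/
noncomputable def dd (n : ℕ) : ℝ :=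
  aa n * (rho n - 1) + if n = 0 then 0 else aa (n - 1) * ((rho (n - 1))⁻¹ - 1)

theorem inv_xx (k : ℕ) : (xx k)⁻¹ = 1 + 1 / ((k : ℝ) + 1) := by
  unfold xx; field_simp; ring

theorem xx_eq (k : ℕ) : xx k = 1 - 1 / ((k : ℝ) + 2) := by
  unfold xx; field_simp; ring

theorem dd_ge {n : ℕ} (h : ∀ k, n ≠ k ^ 4) : KK n ≤ dd n := by
  obtain ⟨k, j, hj, rfl⟩ := exists_kj n
  have hj0 : j ≠ 0 := by rintro rfl; exact h k (by simp)
  obtain ⟨i, rfl⟩ := Nat.exists_eq_succ_of_ne_zero hj0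
  have h1 : k ^ 4 + i.succ = (k ^ 4 + i) + 1 := by omega
  unfold dd KK
  rw [kk_eq hj, h1, if_neg (by omega), Nat.add_sub_cancel]
  have ha1 : aa (k ^ 4 + i + 1) = AA k := by unfold aa; rw [add_assoc, kk_eq hj]
  have ha2 : aa (k ^ 4 + i) = AA k := by unfold aa; rw [kk_eq (by omega)]
  rw [ha1, ha2]
  have hk : (0 : ℝ) ≤ k := Nat.cast_nonneg k
  have e1 : AA k * (xx k - 1) + AA k * ((xx k)⁻¹ - 1) = (k : ℝ) + 1 := by
    rw [inv_xx, xx_eq]; unfold AA; field_simp; ring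
  have e2 : (k : ℝ) + 1 ≤ AA k * ((xx k)⁻¹ - 1) := by
    rw [inv_xx]; unfold AA
    have : ((k : ℝ) + 1) ^ 2 * ((k : ℝ) + 2) * (1 + 1 / ((k : ℝ) + 1) - 1) =
      ((k : ℝ) + 1) * ((k : ℝ) + 2) := by field_simp; ring
    rw [this]; nlinarith
  rcases lt_trichotomy (i + 1) (mm k) with h2 | h2 | h2
  · rw [add_assoc, rho_lt h2, rho_lt (by omega)]
    exact e1.ge
  · rw [add_assoc, h2, rho_eq, rho_lt (by omega)]
    simpa using e2
  · rw [add_assoc, rho_gt h2 hj]
    rcases Nat.lt_or_ge (mm k) i with h3 | h3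
    · rw [rho_gt h3 (by omega), inv_inv]
      linarith
    · have h4 : i = mm k := by omega
      rw [h4, rho_eq]
      simpa using e2

/-! ### Limits -/

theorem kk_ge {M n : ℕ} (h : M ^ 4 ≤ n) : M ≤ kk n := by
  have h1 := kk_mono h
  rwa [(kk_iff (n := M ^ 4) (k := M)).2 ⟨le_rfl, Nat.pow_lt_pow_left (by omega) (by norm_num)⟩]
    at h1

theorem tendsto_kk : Tendsto kk atTop atTop :=
  tendsto_atTop.2 fun M => eventually_atTop.2 ⟨M ^ 4, fun _ h => kk_ge h⟩

theorem tendsto_KK : Tendsto KK atTop atTop :=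
  tendsto_atTop_add_const_right _ _ (tendsto_natCast_atTop_atTop.comp tendsto_kk)

theorem KK_pos (n : ℕ) : 0 < KK n := by unfold KK; positivity

theorem abs_rho_sub (n : ℕ) : |rho n - 1| ≤ 1 / KK n := by
  have hK := KK_pos n
  have hk : (0 : ℝ) ≤ (kk n : ℝ) := Nat.cast_nonneg _
  have h1 : |xx (kk n) - 1| ≤ 1 / KK n := by
    rw [xx_eq]; unfold KK
    have : (1 - 1 / ((kk n : ℝ) + 2) - 1) = - (1 / ((kk n : ℝ) + 2)) := by ring
    rw [this, abs_neg, abs_of_nonneg (by positivity)]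
    exact one_div_le_one_div_of_le (by positivity) (by linarith)
  have h2 : |(xx (kk n))⁻¹ - 1| ≤ 1 / KK n := by
    rw [inv_xx]; unfold KK
    have : (1 + 1 / ((kk n : ℝ) + 1) - 1) = (1 / ((kk n : ℝ) + 1)) := by ring
    rw [this, abs_of_nonneg (by positivity)]
  unfold rho
  split_ifs
  · exact h1
  · simp; positivity
  · exact h2

theorem tendsto_inv_KK : Tendsto (fun n => 1 / KK n) atTop (𝓝 0) := by
  refine tendsto_KK.inv_tendsto_atTop.congr fun n => ?_
  rw [one_div]; rfl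

theorem tendsto_rho : Tendsto rho atTop (𝓝 1) := by
  rw [tendsto_iff_norm_sub_tendsto_zero]
  exact squeeze_zero (fun n => norm_nonneg _) (fun n => by
    rw [Real.norm_eq_abs]; exact abs_rho_sub n) tendsto_inv_KK

theorem kk_succ (n : ℕ) : kk (n + 1) = kk n ∨ kk (n + 1) = kk n + 1 := by
  have h := (kk_iff (n := n) (k := kk n)).1 rfl
  rcases Nat.lt_or_ge (n + 1) ((kk n + 1) ^ 4) with h1 | h1
  · left; rw [kk_iff]; omega
  · right
    have h2 : n + 1 = (kk n + 1) ^ 4 := by omega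
    rw [h2, kk_iff]
    exact ⟨le_rfl, Nat.pow_lt_pow_left (by omega) (by norm_num)⟩

theorem tendsto_ratio : Tendsto (fun n => aa (n + 1) / aa n) atTop (𝓝 1) := by
  have h1 : ∀ n, |aa (n + 1) / aa n - 1| ≤ 7 / KK n := by
    intro n
    have hk : (0 : ℝ) ≤ (kk n : ℝ) := Nat.cast_nonneg _
    have hK := KK_pos n
    rcases kk_succ n with h | h
    · unfold aa
      rw [h, div_self (AA_pos _).ne']
      simp; positivity
    · unfold aa KK
      rw [h]
      unfold AA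
      push_cast
      set k : ℝ := (kk n : ℝ)
      have e : (k + 1 + 1) ^ 2 * (k + 1 + 2) / ((k + 1) ^ 2 * (k + 2)) - 1 =
          (3 * k + 5) / (k + 1) ^ 2 := by
        field_simp
        ring
      rw [e, abs_of_nonneg (by positivity), div_le_div_iff₀ (by positivity) (by positivity)]
      nlinarith
  rw [tendsto_iff_norm_sub_tendsto_zero]
  have h2 : Tendsto (fun n => 7 / KK n) atTop (𝓝 0) := by
    have := tendsto_inv_KK.const_mul 7
    simpa [div_eq_mul_inv] using this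
  exact squeeze_zero (fun n => norm_nonneg _) (fun n => by
    rw [Real.norm_eq_abs]; exact h1 n) h2

theorem tendsto_bb_aa : Tendsto (fun n => bb (n + 1) / aa n) atTop (𝓝 2) := by
  have h1 : ∀ n, bb (n + 1) / aa n = aa (n + 1) / aa n * rho (n + 1) + (rho n)⁻¹ := by
    intro n
    rw [bb_succ]
    have := aa_pos n
    field_simp
  simp only [h1]
  have h2 : Tendsto (fun n => rho (n + 1)) atTop (𝓝 1) :=
    tendsto_rho.comp (tendsto_add_atTop_nat 1)
  have h3 := (tendsto_ratio.mul h2).add (tendsto_rho.inv₀ one_ne_zero)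
  norm_num at h3
  exact h3

theorem tendsto_quot : Tendsto (fun n => aa n ^ 2 / (bb n * bb (n + 1))) atTop (𝓝 (1 / 4)) := by
  rw [← tendsto_add_atTop_iff_nat 1]
  have h2 : Tendsto (fun n => bb (n + 1 + 1) / aa (n + 1)) atTop (𝓝 2) :=
    tendsto_bb_aa.comp (tendsto_add_atTop_nat 1)
  have h3 : Tendsto (fun n => (bb (n + 1) / aa n) / (aa (n + 1) / aa n) *
      (bb (n + 1 + 1) / aa (n + 1))) atTop (𝓝 4) := by
    have := (tendsto_bb_aa.div tendsto_ratio one_ne_zero).mul h2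
    norm_num at this
    exact this
  have h4 := h3.inv₀ (by norm_num)
  rw [one_div]
  refine h4.congr fun n => ?_
  have p1 := aa_pos n
  have p2 := aa_pos (n + 1)
  have q : ∀ n, 0 < bb (n + 1) := by
    intro n
    rw [bb_succ]
    have := aa_pos n
    have := aa_pos (n + 1)
    have := rho_pos n
    have := rho_pos (n + 1)
    positivity
  have q1 := q n
  have q2 := q (n + 1)
  field_simp

theorem bb_ge (n : ℕ) : KK n ≤ bb n := by
  have hk : (0 : ℝ) ≤ (kk n : ℝ) := Nat.cast_nonneg _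
  have h1 : KK n ≤ aa n * rho n := by
    have hx : xx (kk n) ≤ rho n := by
      have h2 := xx_lt_one (kk n)
      have h3 := xx_pos (kk n)
      have h4 : 1 < (xx (kk n))⁻¹ := (one_lt_inv₀ h3).2 h2
      unfold rho
      split_ifs <;> linarith
    have h5 : aa n * xx (kk n) ≤ aa n * rho n := mul_le_mul_of_nonneg_left hx (aa_pos n).le
    refine le_trans ?_ h5
    unfold aa AA xx KK
    have : ((kk n : ℝ) + 1) ^ 2 * ((kk n : ℝ) + 2) * (((kk n : ℝ) + 1) / ((kk n : ℝ) + 2)) =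
      ((kk n : ℝ) + 1) ^ 3 := by field_simp
    rw [this]
    nlinarith [sq_nonneg (kk n : ℝ), pow_nonneg hk 3]
  have h2 : 0 ≤ (if n = 0 then (0 : ℝ) else aa (n - 1) * (rho (n - 1))⁻¹) := by
    have := aa_pos (n - 1)
    have := rho_pos (n - 1)
    split_ifs <;> positivity
  unfold bb
  linarith

theorem tendsto_bb : Tendsto bb atTop atTop := tendsto_atTop_mono bb_ge tendsto_KK

theorem not_summable : ¬ Summable fun n => 1 / aa n := by
  intro hs
  have h1 := hs.hasSum.tendsto_sum_nat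
  have h2 : Tendsto (fun k : ℕ => k ^ 4) atTop atTop := tendsto_pow_atTop (by norm_num)
  have h3 : Tendsto (fun k : ℕ => (k + 1) ^ 4) atTop atTop :=
    h2.comp (tendsto_add_atTop_nat 1)
  have h4 := (h1.comp h3).sub (h1.comp h2)
  rw [sub_self] at h4
  have h5 : ∀ k : ℕ, 1 ≤ k → (1 : ℝ) ≤ ∑ i ∈ Finset.range ((k + 1) ^ 4), 1 / aa i -
      ∑ i ∈ Finset.range (k ^ 4), 1 / aa i := by
    intro k hk
    have hle : k ^ 4 ≤ (k + 1) ^ 4 := by rw [pow_four_succ]; omega
    rw [← Finset.sum_Ico_eq_sub _ hle]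
    have h6 : ∀ i ∈ Finset.Ico (k ^ 4) ((k + 1) ^ 4), 1 / aa i = 1 / AA k := by
      intro i hi
      rw [Finset.mem_Ico] at hi
      unfold aa
      rw [kk_iff.2 hi]
    rw [Finset.sum_congr rfl h6, Finset.sum_const, Nat.card_Ico, nsmul_eq_mul, pow_four_succ]
    have h7 : k ^ 4 + 2 * mm k + 1 - k ^ 4 = 2 * mm k + 1 := by omega
    rw [h7, mul_one_div, le_div_iff₀ (AA_pos k)]
    unfold mm AA
    push_cast
    have hk' : (1 : ℝ) ≤ k := by exact_mod_cast hk
    nlinarith [mul_nonneg (sub_nonneg.2 hk') (sub_nonneg.2 hk'), pow_nonneg (sub_nonneg.2 hk') 3]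
  have h6 : ∀ᶠ k : ℕ in atTop, (1 : ℝ) ≤ ((fun n => ∑ i ∈ Finset.range n, 1 / aa i) ∘
      fun k => (k + 1) ^ 4) k - ((fun n => ∑ i ∈ Finset.range n, 1 / aa i) ∘ fun k => k ^ 4) k :=
    eventually_atTop.2 ⟨1, fun k hk => h5 k hk⟩
  have h7 := ge_of_tendsto h4 h6
  norm_num at h7

end Pool.Agent.H751R3.Chi
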